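import Mathlib

/-!
# CA64: a family of intervals that covers a segment of positions is connected
-/

set_option autoImplicit false

namespace Pool.Agent.CA64

open Finset
open scoped Classical

/-- Intervals `[l v, r v]` of natural numbers, no interval starts right after the end of another one, intersecting
intervals adjacent.  If they cover `[x, y]` they induce a connected graph. -/
theorem cover_connected {V : Type} {G : SimpleGraph V} {l r : V → ℕ} {S : Set V} {x y : ℕ}
    (hxy : x ≤ y) (hl : ∀ v ∈ S, x ≤ l v ∧ l v ≤ r v ∧ l v ≤ y)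
    (hdist : ∀ u ∈ S, ∀ v ∈ S, l v ≠ r u + 1)
    (hadj : ∀ u ∈ S, ∀ v ∈ S, u ≠ v → ∀ t, l u ≤ t → t ≤ r u → l v ≤ t → t ≤ r v → G.Adj u v)
    (hcov : ∀ t, x ≤ t → t ≤ y → ∃ w ∈ S, l w ≤ t ∧ t ≤ r w) :
    (G.induce S).Connected := by
  obtain ⟨w0, hw0, h1, h2⟩ := hcov x le_rfl hxy
  have key : ∀ t, x ≤ t → t ≤ y → ∀ w (hw : w ∈ S), l w ≤ t →
      (G.induce S).Reachable ⟨w, hw⟩ ⟨w0, hw0⟩ := by
    intro t
    induction t with
    | zero =>
      intro hx0 _ w hw hlw
      by_cases hww : w = w0
      · subst hww; exact SimpleGraph.Reachable.refl _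
      · have hlw0 := hl w hw
        have h3 : G.Adj w w0 := hadj w hw w0 hw0 hww x (by omega) (by omega) h1 h2
        exact SimpleGraph.Adj.reachable (G := G.induce S) (u := ⟨w, hw⟩) (v := ⟨w0, hw0⟩) h3
    | succ t ih =>
      intro hx0 hy0 w hw hlw
      by_cases hcase : x = t + 1
      · by_cases hww : w = w0
        · subst hww; exact SimpleGraph.Reachable.refl _
        · have hlw0 := hl w hw
          have h3 : G.Adj w w0 := hadj w hw w0 hw0 hww x (by omega) (by omega) h1 h2
          exact SimpleGraph.Adj.reachable (G := G.induce S) (u := ⟨w, hw⟩) (v := ⟨w0, hw0⟩) h3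
      · by_cases hlt : l w ≤ t
        · exact ih (by omega) (by omega) w hw hlt
        · obtain ⟨u, hu, hu1, hu2⟩ := hcov t (by omega) (by omega)
          have hd := hdist u hu w hw
          have hlw' := hl w hw
          have huw : u ≠ w := by rintro rfl; omega
          have h3 : G.Adj u w := hadj u hu w hw huw (t + 1) (by omega) (by omega) (by omega) (by omega)
          have h4 : (G.induce S).Reachable ⟨w, hw⟩ ⟨u, hu⟩ :=
            SimpleGraph.Adj.reachable (G := G.induce S) (u := ⟨w, hw⟩) (v := ⟨u, hu⟩) h3.symm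
          exact h4.trans (ih (by omega) (by omega) u hu hu1)
  have : Nonempty S := ⟨⟨w0, hw0⟩⟩
  refine SimpleGraph.Connected.mk ?_
  rintro ⟨u, hu⟩ ⟨v, hv⟩
  exact (key y hxy le_rfl u hu (hl u hu).2.2).trans (key y hxy le_rfl v hv (hl v hv).2.2).symm

end Pool.Agent.CA64
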